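import Pool.Agent.Helper41.E2.Sid
import Pool.Agent.Helper84.E2.TopDefs
import Pool.Agent.Helper83.E2.Mk2

/-!
# E-T (MP_12a1af_nt), phase 2: `Sid` satisfies the hypotheses of helper84 and of helper83
-/

set_option autoImplicit false

namespace Pool.Agent.E2

open Finset Pool.Agent.ETS Pool.Agent.ETS.RC

/-- high digits of a shifted element -/
theorem Sid_high {l : ℕ} (hl : 2 ∣ l) (h4 : 4 ≤ l) (s σ r : ℕ) :
    ((Sid l).filter (fun u => (u + σ) % 2 ^ l / 2 ^ (l - s) = r)).card ≤ 4 * 2 ^ (l / 2 - s) := by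
  rcases ((Sid l).filter (fun u => (u + σ) % 2 ^ l / 2 ^ (l - s) = r)).eq_empty_or_nonempty
    with he | ⟨x0, hx0⟩
  · rw [he]; simp
  rw [Finset.mem_filter] at hx0
  have hx0' : (x0 + σ) % 2 ^ l < 2 ^ l := Nat.mod_lt _ (by positivity)
  have hpos : 0 < 2 ^ (l - s) := by positivity
  have ha : r * 2 ^ (l - s) ≤ 2 ^ l := by
    rw [← hx0.2]
    exact (Nat.div_mul_le_self _ _).trans hx0'.le
  refine le_trans (Finset.card_le_card ?_)
    (Sid_interval hl h4 s (σ + (2 ^ l - r * 2 ^ (l - s))))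
  intro x hx
  rw [Finset.mem_filter] at hx ⊢
  refine ⟨hx.1, ?_⟩
  have hx' : (x + σ) % 2 ^ l < 2 ^ l := Nat.mod_lt _ (by positivity)
  have h1 : r * 2 ^ (l - s) ≤ (x + σ) % 2 ^ l := by
    rw [← hx.2]
    exact Nat.div_mul_le_self _ _
  have h2 : (x + σ) % 2 ^ l < r * 2 ^ (l - s) + 2 ^ (l - s) := by
    rw [← hx.2]
    exact Nat.lt_div_mul_add hpos
  have h3 : (x + (σ + (2 ^ l - r * 2 ^ (l - s)))) % 2 ^ l =
      ((x + σ) % 2 ^ l + (2 ^ l - r * 2 ^ (l - s))) % 2 ^ l := by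
    rw [← Nat.add_assoc, Nat.mod_add_mod]
  have h5 : (x + σ) % 2 ^ l + (2 ^ l - r * 2 ^ (l - s)) =
      ((x + σ) % 2 ^ l - r * 2 ^ (l - s)) + 2 ^ l := by omega
  rw [h3, h5, Nat.add_mod_right, Nat.mod_eq_of_lt (by omega)]
  omega

/-- the hypotheses of the local choice -/
theorem Sid_ok {l : ℕ} (hl : 2 ∣ l) (h4 : 4 ≤ l) : SdOk Sid l where
  lt := Sid_lt hl
  card := card_Sid_le l
  pair := Mult_Sid hl h4
  high := fun s σ r _ =>
    (Sid_high hl h4 s σ r).trans (Nat.mul_le_mul_right _ (by norm_num))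

/-- the hypotheses of the local codes -/
theorem Sid_OK : Pool.Agent.Helper83.E2.SdOK Sid where
  lt := fun _ hl _ => Sid_lt hl
  card := fun l _ _ => card_Sid_le l
  mult := fun _ hl h8 => Mult_Sid hl (by omega)

end Pool.Agent.E2
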