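import Pool.Agent.Helper86.ET.Q4

/-!
# E-T (MP_12a1af_nt), phase 2, (C1): the Sidon type code of the small cells

`l = 2 h`, `q = qS h` the largest prime below `2 ^ h`,
`Sid l = {u + 2 ^ h * (u ^ 2 mod q) : u < q}`.
-/

set_option autoImplicit false

namespace Pool.Agent.E2

open Finset Pool.Agent.ETS Pool.Agent.ETS.RC

/-- the largest prime below `2 ^ h` (for `2 ≤ h`) -/
def qS (h : ℕ) : ℕ := Nat.findGreatest Nat.Prime (2 ^ h - 1)

/-- the contents of the small cells of length `l` -/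
def Sid (l : ℕ) : Finset ℕ :=
  (Finset.range (qS (l / 2))).image (fun u => u + 2 ^ (l / 2) * (u ^ 2 % qS (l / 2)))

theorem qS_lt (h : ℕ) : qS h < 2 ^ h := by
  have h1 : qS h ≤ 2 ^ h - 1 := Nat.findGreatest_le _
  have h2 : 0 < 2 ^ h := by positivity
  omega

theorem exists_prime_lt {h : ℕ} (hh : 2 ≤ h) : ∃ p, p.Prime ∧ 2 ^ (h - 1) < p ∧ p ≤ 2 ^ h - 1 := by
  obtain ⟨p, hp, h1, h2⟩ := Nat.exists_prime_lt_and_le_two_mul (2 ^ (h - 1)) (by positivity)
  refine ⟨p, hp, h1, ?_⟩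
  have h3 : 2 * 2 ^ (h - 1) = 2 ^ h := by
    rw [← pow_succ']
    congr 1
    omega
  rw [h3] at h2
  have h4 : p ≠ 2 ^ h := by
    intro h5
    rw [h5] at hp
    exact Nat.Prime.not_prime_pow hh hp
  omega

theorem qS_prime {h : ℕ} (hh : 2 ≤ h) : (qS h).Prime := by
  obtain ⟨p, hp, h1, h2⟩ := exists_prime_lt hh
  exact Nat.findGreatest_spec (P := Nat.Prime) h2 hp

theorem lt_qS {h : ℕ} (hh : 2 ≤ h) : 2 ^ (h - 1) < qS h := by
  obtain ⟨p, hp, h1, h2⟩ := exists_prime_lt hh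
  exact lt_of_lt_of_le h1 (Nat.le_findGreatest h2 hp)

theorem mem_Sid' {h x : ℕ} :
    x ∈ Sid (2 * h) ↔ x % 2 ^ h < qS h ∧ x / 2 ^ h = (x % 2 ^ h) ^ 2 % qS h := by
  unfold Sid
  rw [Nat.mul_div_cancel_left h (by norm_num : 0 < 2), Finset.mem_image]
  have hq := qS_lt h
  constructor
  · rintro ⟨u, hu, rfl⟩
    rw [Finset.mem_range] at hu
    have hu' : u < 2 ^ h := lt_trans hu hq
    rw [Nat.add_mul_mod_self_left, Nat.mod_eq_of_lt hu',
      Nat.add_mul_div_left _ _ (by positivity), Nat.div_eq_of_lt hu', zero_add]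
    exact ⟨hu, rfl⟩
  · rintro ⟨h1, h2⟩
    refine ⟨x % 2 ^ h, Finset.mem_range.mpr h1, ?_⟩
    rw [← h2]
    exact Nat.mod_add_div x (2 ^ h)

theorem Sid_lt' {h x : ℕ} (hx : x ∈ Sid (2 * h)) : x < 2 ^ (2 * h) := by
  obtain ⟨h1, h2⟩ := mem_Sid'.mp hx
  have hq := qS_lt h
  have h3 : x / 2 ^ h < 2 ^ h := by
    rw [h2]
    exact lt_trans (Nat.mod_lt _ (lt_of_le_of_lt (Nat.zero_le _) h1)) hq
  rw [Nat.div_lt_iff_lt_mul (by positivity)] at h3
  rw [two_mul, pow_add]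
  exact h3

theorem Sid_lt {l : ℕ} (hl : 2 ∣ l) : ∀ s ∈ Sid l, s < 2 ^ l := by
  obtain ⟨h, rfl⟩ := hl
  intro s hs
  exact Sid_lt' hs

theorem card_Sid (l : ℕ) : (Sid l).card = qS (l / 2) := by
  unfold Sid
  rw [Finset.card_image_of_injOn, Finset.card_range]
  intro u hu v hv huv
  have hq := qS_lt (l / 2)
  have hu' : u < 2 ^ (l / 2) := lt_trans (Finset.mem_range.mp (Finset.mem_coe.mp hu)) hq
  have hv' : v < 2 ^ (l / 2) := lt_trans (Finset.mem_range.mp (Finset.mem_coe.mp hv)) hq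
  have h1 := congrArg (· % 2 ^ (l / 2)) huv
  simp only [Nat.add_mul_mod_self_left, Nat.mod_eq_of_lt hu', Nat.mod_eq_of_lt hv'] at h1
  exact h1

theorem card_Sid_le (l : ℕ) : (Sid l).card ≤ 2 ^ (l / 2) := by
  rw [card_Sid]
  exact (qS_lt _).le

theorem lt_card_Sid {l : ℕ} (hl : 4 ≤ l) : 2 ^ (l / 2 - 1) < (Sid l).card := by
  rw [card_Sid]
  exact lt_qS (by omega)

/-- the sets of the low halves with a given high half -/
theorem card_sq_fib {q w : ℕ} (hq : q.Prime) (S : Finset ℕ) (hS : ∀ u ∈ S, u < q ∧ u ^ 2 % q = w) :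
    S.card ≤ 2 := by
  rcases S.eq_empty_or_nonempty with rfl | ⟨u, hu⟩
  · simp
  have hsub : S ⊆ {u, q - u} := by
    intro v hv
    obtain ⟨h1, h2⟩ := hS u hu
    obtain ⟨h3, h4⟩ := hS v hv
    have h5 : (q : ℤ) ∣ (v : ℤ) ^ 2 - (u : ℤ) ^ 2 := by
      have h6 : u ^ 2 ≡ v ^ 2 [MOD q] := h2.trans h4.symm
      have h7 := (Nat.modEq_iff_dvd.mp h6)
      push_cast at h7
      exact h7
    have h6 : (v : ℤ) ^ 2 - (u : ℤ) ^ 2 = ((v : ℤ) - u) * ((v : ℤ) + u) := by ring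
    rw [h6] at h5
    rw [Finset.mem_insert, Finset.mem_singleton]
    rcases (Nat.prime_iff_prime_int.mp hq).dvd_or_dvd h5 with h7 | h7
    · left
      have h8 := Int.eq_zero_of_abs_lt_dvd h7 (by rw [abs_lt]; omega)
      omega
    · by_cases h0 : v + u = 0
      · left; omega
      · right
        obtain ⟨k, hk⟩ := h7
        have hk1 : 0 < k := by
          by_contra hneg
          have : (q : ℤ) * k ≤ 0 := mul_nonpos_of_nonneg_of_nonpos (by omega) (by omega)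
          omega
        have hk2 : k < 2 := by
          by_contra hneg
          have : (q : ℤ) * 2 ≤ q * k := mul_le_mul_of_nonneg_left (by omega) (by omega)
          omega
        have hk3 : k = 1 := by omega
        rw [hk3] at hk
        omega
  exact (Finset.card_le_card hsub).trans Finset.card_le_two

/-- pairs with a given sum and a given sum of squares -/
theorem card_sum_fib {q s r : ℕ} (hq : q.Prime) (P : Finset (ℕ × ℕ))
    (hP : ∀ p ∈ P, p.1 < q ∧ p.2 < q ∧ p.1 + p.2 = s ∧ p.1 ^ 2 % q + p.2 ^ 2 % q = r) :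
    P.card ≤ 2 := by
  have hinj : Set.InjOn Prod.fst (P : Set (ℕ × ℕ)) := by
    intro p hp p' hp' h
    have h1 := hP p hp
    have h2 := hP p' hp'
    exact Prod.ext h (by omega)
  rw [← Finset.card_image_of_injOn hinj]
  rcases P.eq_empty_or_nonempty with rfl | ⟨p, hp⟩
  · simp
  rcases hq.eq_two_or_odd' with h2 | hodd
  · have hsub : P.image Prod.fst ⊆ Finset.range 2 := by
      intro v hv
      obtain ⟨p', hp', rfl⟩ := Finset.mem_image.mp hv
      rw [Finset.mem_range]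
      have := (hP p' hp').1
      omega
    exact (Finset.card_le_card hsub).trans (by simp)
  · have hsub : P.image Prod.fst ⊆ {p.1, p.2} := by
      intro v hv
      obtain ⟨p', hp', rfl⟩ := Finset.mem_image.mp hv
      obtain ⟨a1, a2, a3, a4⟩ := hP p hp
      obtain ⟨b1, b2, b3, b4⟩ := hP p' hp'
      have hmod : p.1 ^ 2 + p.2 ^ 2 ≡ p'.1 ^ 2 + p'.2 ^ 2 [MOD q] := by
        have e1 : p.1 ^ 2 + p.2 ^ 2 ≡ r [MOD q] := by
          rw [← a4]
          exact (Nat.ModEq.add (Nat.mod_modEq _ _) (Nat.mod_modEq _ _)).symm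
        have e2 : p'.1 ^ 2 + p'.2 ^ 2 ≡ r [MOD q] := by
          rw [← b4]
          exact (Nat.ModEq.add (Nat.mod_modEq _ _) (Nat.mod_modEq _ _)).symm
        exact e1.trans e2.symm
      have h5 : (q : ℤ) ∣ 2 * (((p'.1 : ℤ) - p.1) * ((p'.1 : ℤ) - p.2)) := by
        have h7 := (Nat.modEq_iff_dvd.mp hmod)
        push_cast at h7
        have e3 : (p.2 : ℤ) = s - p.1 := by omega
        have e4 : (p'.2 : ℤ) = s - p'.1 := by omega
        rw [e4] at h7
        have e5 : 2 * (((p'.1 : ℤ) - p.1) * ((p'.1 : ℤ) - p.2)) =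
            (p'.1 : ℤ) ^ 2 + (s - p'.1) ^ 2 - ((p.1 : ℤ) ^ 2 + (p.2 : ℤ) ^ 2) := by
          rw [e3]
          ring
        rw [e5]
        exact h7
      rw [Finset.mem_insert, Finset.mem_singleton]
      have hpz := Nat.prime_iff_prime_int.mp hq
      rcases hpz.dvd_or_dvd h5 with h6 | h6
      · exfalso
        have h7 : q ∣ 2 := by exact_mod_cast h6
        have h8 := (Nat.prime_dvd_prime_iff_eq hq Nat.prime_two).mp h7
        rw [h8] at hodd
        exact absurd hodd (by decide)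
      rcases hpz.dvd_or_dvd h6 with h7 | h7
      · left
        have h8 := Int.eq_zero_of_abs_lt_dvd h7 (by rw [abs_lt]; omega)
        omega
      · right
        have h8 := Int.eq_zero_of_abs_lt_dvd h7 (by rw [abs_lt]; omega)
        omega
    exact (Finset.card_le_card hsub).trans Finset.card_le_two

/-- sums of two elements modulo `2 ^ l`: at most eight ordered pairs -/
theorem Mult_Sid' {h : ℕ} (hh : 2 ≤ h) : Mult (2 * h) 8 (Sid (2 * h)) (Sid (2 * h)) := by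
  intro c
  set P := (Sid (2 * h) ×ˢ Sid (2 * h)).filter (fun q => (q.1 + q.2) % 2 ^ (2 * h) = c) with hP
  set F : ℕ × ℕ → ℕ × ℕ := fun p =>
    ((p.1 % 2 ^ h + p.2 % 2 ^ h) / 2 ^ h, (p.1 / 2 ^ h + p.2 / 2 ^ h) / 2 ^ h) with hF
  have hq := qS_lt h
  have hpos : 0 < 2 ^ h := by positivity
  have hmaps : ∀ p ∈ P, F p ∈ (Finset.range 2 ×ˢ Finset.range 2) := by
    intro p hp
    rw [hP, Finset.mem_filter, Finset.mem_product] at hp
    obtain ⟨a1, a2⟩ := mem_Sid'.mp hp.1.1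
    obtain ⟨b1, b2⟩ := mem_Sid'.mp hp.1.2
    have a3 : p.1 / 2 ^ h < 2 ^ h := by
      rw [a2]; exact lt_trans (Nat.mod_lt _ (by omega)) hq
    have b3 : p.2 / 2 ^ h < 2 ^ h := by
      rw [b2]; exact lt_trans (Nat.mod_lt _ (by omega)) hq
    rw [Finset.mem_product, Finset.mem_range, Finset.mem_range]
    constructor
    · show (p.1 % 2 ^ h + p.2 % 2 ^ h) / 2 ^ h < 2
      rw [Nat.div_lt_iff_lt_mul hpos]
      omega
    · show (p.1 / 2 ^ h + p.2 / 2 ^ h) / 2 ^ h < 2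
      rw [Nat.div_lt_iff_lt_mul hpos]
      omega
  have hfib : ∀ y ∈ (Finset.range 2 ×ˢ Finset.range 2), (P.filter (fun p => F p = y)).card ≤ 2 := by
    intro y _
    -- pass to the low halves
    set S := P.filter (fun p => F p = y) with hS
    have hinj : Set.InjOn (fun p : ℕ × ℕ => (p.1 % 2 ^ h, p.2 % 2 ^ h)) (S : Set (ℕ × ℕ)) := by
      intro p hp p' hp' he
      rw [Finset.mem_coe, hS, Finset.mem_filter, hP, Finset.mem_filter, Finset.mem_product] at hp hp'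
      obtain ⟨a1, a2⟩ := mem_Sid'.mp hp.1.1.1
      obtain ⟨b1, b2⟩ := mem_Sid'.mp hp.1.1.2
      obtain ⟨c1, c2⟩ := mem_Sid'.mp hp'.1.1.1
      obtain ⟨d1, d2⟩ := mem_Sid'.mp hp'.1.1.2
      have e1 : p.1 % 2 ^ h = p'.1 % 2 ^ h := congrArg Prod.fst he
      have e2 : p.2 % 2 ^ h = p'.2 % 2 ^ h := congrArg Prod.snd he
      have f1 : p.1 / 2 ^ h = p'.1 / 2 ^ h := by rw [a2, c2, e1]
      have f2 : p.2 / 2 ^ h = p'.2 / 2 ^ h := by rw [b2, d2, e2]
      refine Prod.ext ?_ ?_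
      · rw [← Nat.mod_add_div p.1 (2 ^ h), ← Nat.mod_add_div p'.1 (2 ^ h), e1, f1]
      · rw [← Nat.mod_add_div p.2 (2 ^ h), ← Nat.mod_add_div p'.2 (2 ^ h), e2, f2]
    rw [← Finset.card_image_of_injOn hinj]
    -- the carry and the residual target
    set A := c % 2 ^ h + 2 ^ h * y.1 with hA
    set R := (c / 2 ^ h + 2 ^ h * 2 - y.1) % 2 ^ h + 2 ^ h * y.2 with hR
    refine card_sum_fib (q := qS h) (s := A) (r := R) (qS_prime hh) _ ?_
    intro z hz
    obtain ⟨p, hp, rfl⟩ := Finset.mem_image.mp hz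
    have hp0 := hp
    rw [hS, Finset.mem_filter, hP, Finset.mem_filter, Finset.mem_product] at hp
    obtain ⟨⟨⟨g1, g2⟩, g3⟩, g4⟩ := hp
    obtain ⟨a1, a2⟩ := mem_Sid'.mp g1
    obtain ⟨b1, b2⟩ := mem_Sid'.mp g2
    have y1 : (p.1 % 2 ^ h + p.2 % 2 ^ h) / 2 ^ h = y.1 := congrArg Prod.fst g4
    have y2 : (p.1 / 2 ^ h + p.2 / 2 ^ h) / 2 ^ h = y.2 := congrArg Prod.snd g4
    have hy1 : y.1 < 2 := by
      rw [← y1, Nat.div_lt_iff_lt_mul hpos]
      omega
    have hlow : (p.1 % 2 ^ h + p.2 % 2 ^ h) % 2 ^ h = c % 2 ^ h := by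
      rw [← g3, two_mul, pow_add, Nat.mod_mul_left_mod, ← Nat.add_mod]
    have hhigh : (p.1 / 2 ^ h + p.2 / 2 ^ h + y.1) % 2 ^ h = c / 2 ^ h := by
      have h1 : c / 2 ^ h = ((p.1 + p.2) / 2 ^ h) % 2 ^ h := by
        rw [← g3, two_mul, pow_add, Nat.mod_mul_right_div_self]
      rw [h1]
      congr 1
      have h2 : p.1 + p.2 = (p.1 % 2 ^ h + p.2 % 2 ^ h) + 2 ^ h * (p.1 / 2 ^ h + p.2 / 2 ^ h) := by
        conv_lhs => rw [← Nat.mod_add_div p.1 (2 ^ h), ← Nat.mod_add_div p.2 (2 ^ h)]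
        ring
      rw [h2, Nat.add_mul_div_left _ _ hpos, y1]
      ring
    refine ⟨a1, b1, ?_, ?_⟩
    · show p.1 % 2 ^ h + p.2 % 2 ^ h = A
      rw [hA, ← hlow, ← y1]
      exact (Nat.mod_add_div _ _).symm
    · show (p.1 % 2 ^ h) ^ 2 % qS h + (p.2 % 2 ^ h) ^ 2 % qS h = R
      rw [← a2, ← b2, hR, ← y2]
      have h3 : (c / 2 ^ h + 2 ^ h * 2 - y.1) % 2 ^ h = (p.1 / 2 ^ h + p.2 / 2 ^ h) % 2 ^ h := by
        have h4 : (c / 2 ^ h + 2 ^ h * 2 - y.1) + y.1 ≡ (p.1 / 2 ^ h + p.2 / 2 ^ h) + y.1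
            [MOD 2 ^ h] := by
          have h5 : y.1 ≤ c / 2 ^ h + 2 ^ h * 2 := by omega
          rw [Nat.sub_add_cancel h5]
          have h6 : c / 2 ^ h + 2 ^ h * 2 ≡ c / 2 ^ h [MOD 2 ^ h] := by
            unfold Nat.ModEq
            rw [Nat.add_mul_mod_self_left]
          refine h6.trans ?_
          rw [← hhigh]
          exact Nat.mod_modEq _ _
        exact Nat.ModEq.add_right_cancel' _ h4
      rw [h3]
      exact (Nat.mod_add_div _ _).symm
  calc P.card ≤ 2 * (Finset.range 2 ×ˢ Finset.range 2).card :=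
        Finset.card_le_mul_card_image_of_maps_to hmaps 2 hfib
    _ = 8 := by simp

theorem Mult_Sid {l : ℕ} (hl : 2 ∣ l) (h4 : 4 ≤ l) : Mult l 8 (Sid l) (Sid l) := by
  obtain ⟨h, rfl⟩ := hl
  exact Mult_Sid' (by omega)

/-- prescribed low digits -/
theorem Sid_low {l : ℕ} (hl : 2 ∣ l) (s a : ℕ) :
    ((Sid l).filter (fun x => x % 2 ^ s = a)).card ≤ 2 ^ (l / 2 - s) := by
  obtain ⟨h, rfl⟩ := hl
  rw [Nat.mul_div_cancel_left h (by norm_num : 0 < 2)]
  have hq := qS_lt h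
  have hpos : 0 < 2 ^ s := by positivity
  -- the low half divided by `2 ^ s`
  have hmaps : ∀ x ∈ (Sid (2 * h)).filter (fun x => x % 2 ^ s = a),
      x % 2 ^ h / 2 ^ s ∈ Finset.range (2 ^ (h - s)) := by
    intro x hx
    rw [Finset.mem_range, Nat.div_lt_iff_lt_mul hpos, ← pow_add]
    refine lt_of_lt_of_le (Nat.mod_lt _ (by positivity)) (Nat.pow_le_pow_right (by norm_num) ?_)
    omega
  have h1 := Finset.card_le_card_of_injOn (fun x => x % 2 ^ h / 2 ^ s)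
    (s := (Sid (2 * h)).filter (fun x => x % 2 ^ s = a)) (t := Finset.range (2 ^ (h - s)))
    (fun x hx => hmaps x hx) ?_
  · rwa [Finset.card_range] at h1
  · intro x hx y hy he
    rw [Finset.mem_coe, Finset.mem_filter] at hx hy
    obtain ⟨a1, a2⟩ := mem_Sid'.mp hx.1
    obtain ⟨b1, b2⟩ := mem_Sid'.mp hy.1
    have hlow : x % 2 ^ h = y % 2 ^ h := by
      rcases le_or_gt s h with hs | hs
      · have e1 : x % 2 ^ h % 2 ^ s = x % 2 ^ s := Nat.mod_mod_of_dvd x (pow_dvd_pow 2 hs)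
        have e2 : y % 2 ^ h % 2 ^ s = y % 2 ^ s := Nat.mod_mod_of_dvd y (pow_dvd_pow 2 hs)
        rw [← Nat.mod_add_div (x % 2 ^ h) (2 ^ s), ← Nat.mod_add_div (y % 2 ^ h) (2 ^ s), e1, e2,
          hx.2, hy.2]
        have he' : x % 2 ^ h / 2 ^ s = y % 2 ^ h / 2 ^ s := he
        rw [he']
      · have e1 : x % 2 ^ s % 2 ^ h = x % 2 ^ h := Nat.mod_mod_of_dvd x (pow_dvd_pow 2 hs.le)
        have e2 : y % 2 ^ s % 2 ^ h = y % 2 ^ h := Nat.mod_mod_of_dvd y (pow_dvd_pow 2 hs.le)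
        rw [← e1, ← e2, hx.2, hy.2]
    have hhigh : x / 2 ^ h = y / 2 ^ h := by rw [a2, b2, hlow]
    rw [← Nat.mod_add_div x (2 ^ h), ← Nat.mod_add_div y (2 ^ h), hlow, hhigh]

/-- the elements with a given high half -/
theorem card_Sid_high {h : ℕ} (hh : 2 ≤ h) (w : ℕ) :
    ((Sid (2 * h)).filter (fun x => x / 2 ^ h = w)).card ≤ 2 := by
  have hinj : Set.InjOn (fun x => x % 2 ^ h)
      (((Sid (2 * h)).filter (fun x => x / 2 ^ h = w) : Finset ℕ) : Set ℕ) := by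
    intro x hx y hy he
    rw [Finset.mem_coe, Finset.mem_filter] at hx hy
    have he' : x % 2 ^ h = y % 2 ^ h := he
    rw [← Nat.mod_add_div x (2 ^ h), ← Nat.mod_add_div y (2 ^ h), he', hx.2, hy.2]
  rw [← Finset.card_image_of_injOn hinj]
  refine card_sq_fib (w := w) (qS_prime hh) _ ?_
  intro u hu
  obtain ⟨x, hx, rfl⟩ := Finset.mem_image.mp hu
  rw [Finset.mem_filter] at hx
  obtain ⟨a1, a2⟩ := mem_Sid'.mp hx.1
  exact ⟨a1, by rw [← a2, hx.2]⟩

/-- elements in a cyclic interval of length at most `k * 2 ^ h` -/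
theorem Sid_interval' {h : ℕ} (hh : 2 ≤ h) (a m k : ℕ) (hm : m ≤ k * 2 ^ h) :
    ((Sid (2 * h)).filter (fun x => (x + a) % 2 ^ (2 * h) < m)).card ≤ 2 * (k + 1) := by
  set S := (Sid (2 * h)).filter (fun x => (x + a) % 2 ^ (2 * h) < m) with hS
  have hpos : 0 < 2 ^ h := by positivity
  have hq := qS_lt h
  have hmaps : ∀ x ∈ S, (x / 2 ^ h + 1 + a / 2 ^ h) % 2 ^ h ∈ Finset.range (k + 1) := by
    intro x hx
    rw [hS, Finset.mem_filter] at hx
    rw [Finset.mem_range]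
    -- the carry
    obtain ⟨κ, hκ⟩ : ∃ κ, κ = (x % 2 ^ h + a % 2 ^ h) / 2 ^ h := ⟨_, rfl⟩
    have hκ1 : κ ≤ 1 := by
      have : κ < 2 := by
        rw [hκ, Nat.div_lt_iff_lt_mul hpos]
        have h1 := Nat.mod_lt x hpos
        have h2 := Nat.mod_lt a hpos
        omega
      omega
    have hsum : (x + a) / 2 ^ h = x / 2 ^ h + a / 2 ^ h + κ := by
      have h2 : x + a = (x % 2 ^ h + a % 2 ^ h) + 2 ^ h * (x / 2 ^ h + a / 2 ^ h) := by
        conv_lhs => rw [← Nat.mod_add_div x (2 ^ h), ← Nat.mod_add_div a (2 ^ h)]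
        ring
      rw [h2, Nat.add_mul_div_left _ _ hpos, ← hκ]
      ring
    have hj : (x + a) / 2 ^ h % 2 ^ h < k := by
      have h1 : (x + a) / 2 ^ h % 2 ^ h = (x + a) % 2 ^ (2 * h) / 2 ^ h := by
        rw [two_mul, pow_add, Nat.mod_mul_right_div_self]
      rw [h1, Nat.div_lt_iff_lt_mul hpos]
      exact lt_of_lt_of_le hx.2 hm
    have h3 : (x / 2 ^ h + 1 + a / 2 ^ h) % 2 ^ h =
        ((x + a) / 2 ^ h % 2 ^ h + (1 - κ)) % 2 ^ h := by
      have h4 : x / 2 ^ h + 1 + a / 2 ^ h = (x + a) / 2 ^ h + (1 - κ) := by omega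
      rw [h4, Nat.mod_add_mod]
    rw [h3]
    have h5 := Nat.mod_le ((x + a) / 2 ^ h % 2 ^ h + (1 - κ)) (2 ^ h)
    omega
  have hfib : ∀ y ∈ Finset.range (k + 1),
      (S.filter (fun x => (x / 2 ^ h + 1 + a / 2 ^ h) % 2 ^ h = y)).card ≤ 2 := by
    intro y _
    rcases (S.filter (fun x => (x / 2 ^ h + 1 + a / 2 ^ h) % 2 ^ h = y)).eq_empty_or_nonempty
      with he | ⟨x0, hx0⟩
    · rw [he]; simp
    · refine le_trans (Finset.card_le_card ?_) (card_Sid_high hh (x0 / 2 ^ h))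
      intro x hx
      rw [Finset.mem_filter, hS, Finset.mem_filter] at hx hx0
      rw [Finset.mem_filter]
      refine ⟨hx.1.1, ?_⟩
      have h1 : x / 2 ^ h + (1 + a / 2 ^ h) ≡ x0 / 2 ^ h + (1 + a / 2 ^ h) [MOD 2 ^ h] := by
        have e1 := hx.2
        have e2 := hx0.2
        unfold Nat.ModEq
        rw [← Nat.add_assoc, ← Nat.add_assoc, e1, e2]
      have h2 := Nat.ModEq.add_right_cancel' _ h1
      obtain ⟨a1, a2⟩ := mem_Sid'.mp hx.1.1
      obtain ⟨b1, b2⟩ := mem_Sid'.mp hx0.1.1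
      refine Nat.ModEq.eq_of_lt_of_lt h2 ?_ ?_
      · rw [a2]; exact lt_trans (Nat.mod_lt _ (by omega)) hq
      · rw [b2]; exact lt_trans (Nat.mod_lt _ (by omega)) hq
  have h := Finset.card_le_mul_card_image_of_maps_to hmaps 2 hfib
  rwa [Finset.card_range] at h

/-- elements in a cyclic interval of length `2 ^ (l - s)` -/
theorem Sid_interval {l : ℕ} (hl : 2 ∣ l) (h4 : 4 ≤ l) (s a : ℕ) :
    ((Sid l).filter (fun x => (x + a) % 2 ^ l < 2 ^ (l - s))).card ≤ 4 * 2 ^ (l / 2 - s) := by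
  obtain ⟨h, rfl⟩ := hl
  rw [Nat.mul_div_cancel_left h (by norm_num : 0 < 2)]
  have hpos : 0 < 2 ^ (h - s) := by positivity
  refine le_trans (Sid_interval' (by omega) a _ (2 ^ (h - s)) ?_) (by omega)
  rw [← pow_add]
  exact Nat.pow_le_pow_right (by norm_num) (by omega)

/-- prescribed high digits -/
theorem Sid_top {l : ℕ} (hl : 2 ∣ l) (h4 : 4 ≤ l) (s a : ℕ) :
    ((Sid l).filter (fun x => x / 2 ^ (l - s) = a)).card ≤ 4 * 2 ^ (l / 2 - s) := by
  rcases ((Sid l).filter (fun x => x / 2 ^ (l - s) = a)).eq_empty_or_nonempty with he | ⟨x0, hx0⟩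
  · rw [he]; simp
  rw [Finset.mem_filter] at hx0
  have hx0' := Sid_lt hl x0 hx0.1
  have hpos : 0 < 2 ^ (l - s) := by positivity
  have ha : a * 2 ^ (l - s) ≤ 2 ^ l := by
    rw [← hx0.2]
    exact (Nat.div_mul_le_self _ _).trans hx0'.le
  refine le_trans (Finset.card_le_card ?_) (Sid_interval hl h4 s (2 ^ l - a * 2 ^ (l - s)))
  intro x hx
  rw [Finset.mem_filter] at hx ⊢
  refine ⟨hx.1, ?_⟩
  have hx' := Sid_lt hl x hx.1
  have h1 : a * 2 ^ (l - s) ≤ x := by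
    rw [← hx.2]
    exact Nat.div_mul_le_self _ _
  have h2 : x < a * 2 ^ (l - s) + 2 ^ (l - s) := by
    rw [← hx.2]
    exact Nat.lt_div_mul_add hpos
  have h3 : x + (2 ^ l - a * 2 ^ (l - s)) = (x - a * 2 ^ (l - s)) + 2 ^ l := by omega
  rw [h3, Nat.add_mod_right, Nat.mod_eq_of_lt (by omega)]
  omega

end Pool.Agent.E2
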